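import Mathlib

/-!
# Tate modules with trivial Rosati involution
-/

namespace Pool.Agent.TH776.FL

/-- All endomorphisms of the Tate module that commute with a subgroup of finite index are
self-adjoint for the Weil pairing `ω`. By the theorem of Faltings these are the endomorphisms of `A`
over the algebraic closure of the field of definition, with coefficients in `k = ℚ_ℓ`, so that the
condition says that the Rosati involution is trivial; for instance `End(A) = ℤ`, or `A` is
simple of type I in the classification of Albert. -/
def RosatiTrivial {k V Γ : Type} [Field k] [AddCommGroup V] [Module k V] [Group Γ]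
    (ρ : Representation k Γ V) (ω : V →ₗ[k] V →ₗ[k] k) : Prop :=
  ∀ P : Module.End k V, (∃ Δ : Subgroup Γ, Δ.FiniteIndex ∧ ∀ s ∈ Δ, ∀ v, P (ρ s v) = ρ s (P v)) →
    ∀ u v, ω (P u) v = ω u (P v)

end Pool.Agent.TH776.FL
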