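import Pool.Agent.W516.FourMain
import Pool.Agent.TH776.FM.RepDefs
import Pool.Agent.TH776.FL.Defs

/-!
# Tate classes of low codimension from one Frobenius element without relations of length four
-/

set_option linter.unusedSectionVars false
set_option linter.unusedVariables false

namespace Pool.Agent.TH776.FL

open Module Pool.Agent.H204R3.SP Pool.Agent.H204R3.GP Pool.Agent.W516.FT Pool.Agent.TH776.FM

noncomputable section

variable {k V Γ : Type} [Field k] [CharZero k] [AddCommGroup V] [Module k V]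
  [FiniteDimensional k V] [Group Γ] {ρ : Representation k Γ V} {χ : Γ →* k}
  {ω : V →ₗ[k] V →ₗ[k] k}

theorem codimension_of_four (h : IsTateModule ρ χ ω) {γ : Γ} {q : ℕ} (hχ : χ γ = q)
    {P : Polynomial ℚ} (hP : P.Separable) (hγ : (ρ γ).charpoly = P.map (algebraMap ℚ k))
    (h4 : OnlyTrivialRelationsOfLengthFour P q) {m : ℕ}
    (hsym : SymmetricTateFormsHaveRankGreaterThan ρ χ (4 * m)) : GeneratedInCodimension ρ χ m := by
  intro n f hf
  obtain ⟨Δ, hΔ, hf⟩ := hf
  have hss' : ∀ Δ : Subgroup Γ, Δ.FiniteIndex → SemiUnder (ρ '' (Δ : Set Γ)) := by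
    intro Δ hΔ U hU
    obtain ⟨U', h1, h2⟩ := h.semisimple Δ hΔ U (fun s hs u hu => hU _ ⟨s, hs, rfl⟩ u hu)
    refine ⟨U', ?_, h2⟩
    rintro _ ⟨s, hs, rfl⟩ u hu
    exact h1 s hs u hu
  have h1 := altG_of_tate_mem ρ χ (n := n) (m := m) (fun φ hφ => tate_of_four ρ χ ω h.alt h.nondeg
    h.similitude hss' γ hχ hP hγ h4 hsym φ hφ) f Δ hΔ hf
  refine Submodule.span_mono ?_ h1
  rintro g ⟨B, hB, hg⟩
  refine ⟨B, fun l => ?_, hg⟩
  obtain ⟨Δ', hΔ', h2⟩ := hB l
  refine ⟨Δ', hΔ', fun s hs v => ?_⟩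
  rw [pow_one]
  exact h2 s hs v

/-- Symmetric Tate forms vanish if the Rosati involution is trivial. -/
theorem symmetric_zero (h : IsTateModule ρ χ ω) (hR : RosatiTrivial ρ ω) (d : ℕ) :
    SymmetricTateFormsHaveRankGreaterThan ρ χ d := by
  classical
  intro Ω _ _ _ B hB hB0
  exfalso
  apply hB0
  obtain ⟨hsym, Δ, hΔ, hBΔ⟩ := hB
  have hχ0 : ∀ s, χ s ≠ 0 := by
    intro s h0
    have h1 : χ s * χ s⁻¹ = 1 := by rw [← map_mul, mul_inv_cancel, map_one]
    rw [h0, zero_mul] at h1
    exact zero_ne_one h1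
  -- coordinates of the values
  let b := Module.finBasis k Ω
  have hcoord : ∀ i, ∀ u v, (b.coord i) (B u v) = 0 := by
    intro i
    let Bi : V →ₗ[k] V →ₗ[k] k := B.compr₂ (b.coord i)
    have hBi : ∀ u v, Bi u v = b.coord i (B u v) := fun _ _ => rfl
    have hBis : ∀ u v, Bi u v = Bi v u := fun u v => by rw [hBi, hBi, hsym]
    -- the adjoint endomorphism
    have hinj : Function.Injective ω := by
      rw [← LinearMap.ker_eq_bot, Submodule.eq_bot_iff]
      intro u hu
      apply h.nondeg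
      intro v
      have h1 : ω u v = 0 := by rw [LinearMap.mem_ker.1 hu]; rfl
      have h2 := h.alt (u + v)
      simp only [map_add, LinearMap.add_apply, h.alt, zero_add, add_zero, h1] at h2
      exact h2
    have hbij : Function.Bijective ω :=
      ⟨hinj, (LinearMap.injective_iff_surjective_of_finrank_eq_finrank
        (Subspace.dual_finrank_eq (K := k) (V := V)).symm).1 hinj⟩
    let e : V ≃ₗ[k] (V →ₗ[k] k) := LinearEquiv.ofBijective ω hbij
    let P : Module.End k V := e.symm.toLinearMap.comp Bi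
    have hP : ∀ u v, ω (P u) v = Bi u v := by
      intro u v
      have h1 : ω (P u) = Bi u := e.apply_symm_apply (Bi u)
      rw [h1]
    have hcomm : ∀ s ∈ Δ, ∀ v, P (ρ s v) = ρ s (P v) := by
      intro s hs v
      apply hinj
      refine LinearMap.ext fun w => ?_
      obtain ⟨w, rfl⟩ : ∃ w', ρ s w' = w := ⟨ρ s⁻¹ w, rho_inv' ρ s w⟩
      rw [hP, h.similitude, hP, hBi, hBi, hBΔ s hs, map_smul, smul_eq_mul]
    have hself := hR P ⟨Δ, hΔ, hcomm⟩
    intro u v
    have h1 : Bi u v = - Bi v u := by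
      rw [← hP u v, hself, ← hP v u]
      have h2 := h.alt (u + P v)
      simp only [map_add, LinearMap.add_apply, h.alt, zero_add, add_zero] at h2
      linear_combination h2
    rw [hBis v u] at h1
    have h2 : (2 : k) * Bi u v = 0 := by linear_combination h1
    rw [← hBi]
    exact (mul_eq_zero.1 h2).resolve_left two_ne_zero
  refine LinearMap.ext fun u => LinearMap.ext fun v => ?_
  apply b.repr.injective
  ext i
  have h1 := hcoord i u v
  rw [Basis.coord_apply] at h1
  rw [h1, LinearMap.zero_apply, LinearMap.zero_apply, map_zero, Finsupp.zero_apply]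

theorem tate_of_rosati (h : IsTateModule ρ χ ω) {γ : Γ} {q : ℕ} (hχ : χ γ = q)
    {P : Polynomial ℚ} (hP : P.Separable) (hγ : (ρ γ).charpoly = P.map (algebraMap ℚ k))
    (h4 : OnlyTrivialRelationsOfLengthFour P q) (hR : RosatiTrivial ρ ω) :
    TateGeneratedInDegreeTwo ρ χ := fun n m f hf =>
  codimension_of_four h hχ hP hγ h4 (symmetric_zero h hR _) n f hf

end

end Pool.Agent.TH776.FL
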